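import Pool.Agent.H77.Col.Fibre5

set_option autoImplicit false

/-! How many starting values, and how small ones, have a given maximum of the `3x+1` trajectory. -/

namespace Pool.Agent.Results.MP_0a5adf_nt.FibresOfTheMaximum

open Filter Topology

/-- the accelerated `3x+1` map -/
def T (n : ℕ) : ℕ := if n % 2 = 0 then n / 2 else (3 * n + 1) / 2

/-- `t(n) = m` -/
def MaxIs (n m : ℕ) : Prop := (∃ k, T^[k] n = m) ∧ ∀ k, T^[k] n ≤ m

/-- `t(n) < ∞` -/
def FiniteExcursion (n : ℕ) : Prop := ∃ M : ℕ, ∀ k, T^[k] n ≤ M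

/-- the positive integers with the property `P` have the natural density `δ` -/
def HasDensity (P : ℕ → Prop) (δ : ℝ) : Prop :=
  Tendsto (fun N : ℕ => ({n : ℕ | 1 ≤ n ∧ n ≤ N ∧ P n}.ncard : ℝ) / N) atTop (𝓝 δ)

/-- the starting values `n ≤ m / lam` with `t(n) = m` -/
def starts (lam : ℝ) (m : ℕ) : Set ℕ := {n | 1 ≤ n ∧ MaxIs n m ∧ lam * n ≤ m}

/-- the number of the `0`-`1` words of length `k` with `s` ones, all whose nonempty prefixes of length `l`
have `i` ones, `2^l < 3^i` -/
def rising : ℕ → ℕ → ℕ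
  | 0, s => if s = 0 then 1 else 0
  | k + 1, s => if 2 ^ (k + 1) < 3 ^ s then rising k s + (if s = 0 then 0 else rising k (s - 1)) else 0

/-- `E[exp(σ S_k) ; S_k > 0]`, `S_k` the sum of `k` independent variables which are `log(3/2)` or `-log 2`
with probability `1/2` -/
noncomputable def up (k : ℕ) (σ : ℝ) : ℝ :=
  ∑ s ∈ Finset.range (k + 1), if 2 ^ k < 3 ^ s then (k.choose s : ℝ) / 2 ^ k * ((3 : ℝ) ^ s / 2 ^ k) ^ σ else 0

/-- `E[exp(σ S_k) ; S_k < 0]` -/
noncomputable def down (k : ℕ) (σ : ℝ) : ℝ :=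
  ∑ s ∈ Finset.range (k + 1), if 3 ^ s < 2 ^ k then (k.choose s : ℝ) / 2 ^ k * ((3 : ℝ) ^ s / 2 ^ k) ^ σ else 0

/-- `exp(- ∑_{k ≥ 1} P(S_k > 0) / k)` -/
noncomputable def ϖ : ℝ := Real.exp (-∑' k : ℕ, up (k + 1) 0 / (k + 1))

/-- the constant of the tail -/
noncomputable def C : ℝ :=
  4 / Real.log (27 / 16) * Real.exp (-∑' k : ℕ, (up (k + 1) 0 + down (k + 1) 1) / (k + 1))

open scoped Classical in
/-- `∑ rising(k,s) / 3^s`, the sum over the `(k,s)` with `lam 2^k ≤ 3^s` -/
noncomputable def E (lam : ℝ) : ℝ :=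
  ∑' p : ℕ × ℕ, if lam * 2 ^ p.1 ≤ 3 ^ p.2 then (rising p.1 p.2 : ℝ) / 3 ^ p.2 else 0

theorem rising_eq (k s : ℕ) : rising k s = Pool.Agent.H77.Col.rising k s := by
  induction k generalizing s with
  | zero => rfl
  | succ k ih => rw [rising, Pool.Agent.H77.Col.rising, ih, ih]

open Pool.Agent.H77.Col in
theorem E_eq (lam : ℝ) : E lam = ∑' p : ℕ × ℕ, wt {p | lam * 2 ^ p.1 ≤ 3 ^ p.2} p.1 p.2 := by
  unfold E
  apply tsum_congr
  intro p
  unfold wt
  rw [rising_eq]
  rfl

theorem iterate_zero' (j : ℕ) : T^[j] 0 = 0 := by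
  induction j with
  | zero => rfl
  | succ j ih => rw [Function.iterate_succ_apply', ih]; rfl

open Pool.Agent.H77.Col in
/-- THE FIBRES OF THE MAXIMUM. `t(n)` is the maximum of the trajectory of `n`, `β > 0` the density of the
`n` with `t(n) < ∞` (`β = 1` iff this holds for all `n`), `ϖ` and `C` are the explicit constants above.
The numbers `m` with `t(m) = m`, which are the values of `t`, are equidistributed modulo every odd `q`, with
density `β ϖ / q` in each class. For `lam ≥ 1` the number of the starting values `n ≤ m / lam` with `t(n) = m`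
has a limit law `a`, `m` running through the values of `t`: the `m` with at least `i` such `n` have the density
`β ϖ a(i)`, `a(0) = 1`, and the mean `∑_{i ≥ 1} a(i)` is `E(lam)`. For `lam = 1`, when all the starting values
are counted, `a(1) = 1` and the mean is `exp(∑_{k ≥ 1} E[exp(-S_k) ; S_k > 0] / k)`. The mean is asymptotic to
`C / (2 ϖ) * lam ^ (-2)` as `lam → ∞`; the exponent is the one of the question whether `t(n) ≤ C n ^ 2`. -/
theorem result : ∃ β : ℝ, 0 < β ∧ β ≤ 1 ∧ (β = 1 ↔ ∀ n : ℕ, 1 ≤ n → FiniteExcursion n) ∧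
    HasDensity FiniteExcursion β ∧
    (∀ m : ℕ, MaxIs m m ↔ ∃ n, MaxIs n m) ∧
    (∀ q c : ℕ, Odd q → HasDensity (fun m => m ≡ c [MOD q] ∧ MaxIs m m) (β * ϖ / q)) ∧
    (∀ lam : ℝ, 1 ≤ lam → ∃ a : ℕ → ℝ, a 0 = 1 ∧ (lam = 1 → a 1 = 1) ∧ HasSum (fun i => a (i + 1)) (E lam) ∧
      ∀ i : ℕ, HasDensity (fun m => MaxIs m m ∧ i ≤ (starts lam m).ncard) (β * ϖ * a i)) ∧
    E 1 = Real.exp (∑' k : ℕ, up (k + 1) (-1) / (k + 1)) ∧
    Tendsto (fun lam : ℝ => lam ^ 2 * E lam) atTop (𝓝 (C / (2 * ϖ))) := by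
  classical
  obtain ⟨β, h0, h1, h2, h3⟩ := Pool.Agent.H499R2.ND.Bdd_density
  have hself : ∀ m, MaxIs m m ↔ Pool.Agent.H77.Col.IsMax m := fun m => ⟨fun h => h.2, fun h => ⟨⟨0, rfl⟩, h⟩⟩
  have hprog : ∀ q c : ℕ, Odd q → HasDensity (fun m => m ≡ c [MOD q] ∧ MaxIs m m) (β * ϖ / q) := by
    intro q c hq
    have h := max_prog h3 (q := q) (Nat.odd_iff.1 hq) c
    have e : (fun n => n % q = c % q ∧ Pool.Agent.H77.Col.IsMax n) = fun m => m ≡ c [MOD q] ∧ MaxIs m m := by
      funext m
      apply propext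
      rw [hself]
      rfl
    rw [e] at h
    exact h
  have hdens : ∀ (lam : ℝ) (i : ℕ), HasDensity (fun m => MaxIs m m ∧ i ≤ (starts lam m).ncard)
      (β * ϖ * aLim (Alam lam) i) := by
    intro lam i
    have h := start_density h3 lam i
    have e : (fun m => Pool.Agent.H77.Col.IsMax m ∧ i ≤ (start lam m).ncard) = fun m => MaxIs m m ∧ i ≤ (starts lam m).ncard := by
      funext m
      apply propext
      rw [hself]
      rfl
    rw [e] at h
    exact h
  have hall := hprog 1 0 odd_one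
  have hall' : HasDensity (fun m => MaxIs m m) (β * ϖ) := by
    have e : (fun m => m ≡ 0 [MOD 1] ∧ MaxIs m m) = fun m => MaxIs m m := by
      funext m
      apply propext
      exact ⟨fun h => h.2, fun h => ⟨Nat.modEq_one, h⟩⟩
    rw [e] at hall
    simpa using hall
  have hϖ : 0 < ϖ := Real.exp_pos _
  refine ⟨β, h0, h1, h2, h3, ?_, hprog, ?_, ?_, ?_⟩
  · intro m
    constructor
    · exact fun h => ⟨m, h⟩
    · rintro ⟨n, ⟨k, hk⟩, h⟩
      refine ⟨⟨0, rfl⟩, fun j => ?_⟩
      rw [← hk, ← Function.iterate_add_apply, hk]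
      exact h _
  · intro lam hl
    refine ⟨aLim (Alam lam), ?_, ?_, ?_, hdens lam⟩
    · unfold aLim aJ
      have : ∀ J : ℕ, (((Finset.range (3 ^ J)).filter (fun c => 0 ≤ NR (Alam lam) J c)).card : ℝ) / 3 ^ J = 1 := by
        intro J
        rw [Finset.filter_true_of_mem (fun _ _ => Nat.zero_le _), Finset.card_range]
        push_cast
        exact div_self (by positivity)
      simp only [this]
      exact ciSup_const
    · intro hl1
      subst hl1
      have h4 := hdens 1 1
      have e : (fun m => MaxIs m m ∧ 1 ≤ (starts 1 m).ncard) = fun m => (MaxIs m m ∧ 1 ≤ m) := by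
        funext m
        apply propext
        have hfin : (starts 1 m).Finite := by
          refine (Set.finite_Icc 0 m).subset fun n hn => ⟨Nat.zero_le _, ?_⟩
          have h7 := hn.2.2
          rw [one_mul] at h7
          exact_mod_cast h7
        constructor
        · rintro ⟨h5, h6⟩
          refine ⟨h5, ?_⟩
          obtain ⟨n, hn⟩ := (Set.ncard_pos hfin).1 h6
          have h7 := hn.2.2
          rw [one_mul] at h7
          have : n ≤ m := by exact_mod_cast h7
          exact hn.1.trans this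
        · rintro ⟨h5, h6⟩
          refine ⟨h5, (Set.ncard_pos hfin).2 ⟨m, h6, h5, by rw [one_mul]⟩⟩
      rw [e] at h4
      have h5 : HasDensity (fun m => MaxIs m m ∧ 1 ≤ m) (β * ϖ) := by
        unfold HasDensity at hall' ⊢
        refine hall'.congr fun N => ?_
        congr 3
        ext n
        simp only [Set.mem_ofPred_eq]
        tauto
      have h6 := tendsto_nhds_unique h4 h5
      have h7 : β * ϖ ≠ 0 := (mul_pos h0 hϖ).ne'
      exact mul_left_cancel₀ h7 (by rw [h6, mul_one])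
    · rw [E_eq]
      exact fibre_mean (Alam lam)
  · rw [E_eq]
    have h4 := gen_hasSum (σ := -1) (z := 1) (by norm_num) (by norm_num) le_rfl
    simp only [one_pow, mul_one] at h4
    have h5 : ∀ p : ℕ × ℕ, wt {p | (1 : ℝ) * 2 ^ p.1 ≤ 3 ^ p.2} p.1 p.2 = varpi⁻¹ * (mass p * rat p ^ (-1 : ℝ)) := by
      intro p
      rw [Real.rpow_neg_one, ← div_eq_mul_inv, mass_div, inv_mul_cancel_left₀ varpi_pos.ne']
      unfold wt
      by_cases h6 : Pool.Agent.H77.Col.rising p.1 p.2 = 0
      · rw [h6]; simp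
      · have h7 := rising_pos_lt h6
        unfold rat at h7
        rw [le_div_iff₀ (by positivity)] at h7
        exact if_pos h7
    rw [tsum_congr h5, tsum_mul_left, h4.tsum_eq, inv_mul_cancel_left₀ varpi_pos.ne']
    congr 1
    apply tsum_congr
    intro k
    have : up = Pool.Agent.H77.Col.up := rfl
    rw [this]
    ring
  · have h4 := small_tendsto
    refine h4.congr fun lam => ?_
    rw [E_eq]

end Pool.Agent.Results.MP_0a5adf_nt.FibresOfTheMaximum
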