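import Pool.Agent.H77.Col.FirstPass3
import Pool.Agent.H77.Col.Abel

set_option autoImplicit false

/-! When does a `3x+1` trajectory with a large excursion reach the large values: the normal law of the first
passage times. -/

namespace Pool.Agent.Results.MP_0a5adf_nt.FirstPassageOfLargeExcursions

open Filter Topology ProbabilityTheory

/-- the accelerated `3x+1` map -/
def T (n : ℕ) : ℕ := if n % 2 = 0 then n / 2 else (3 * n + 1) / 2

/-- the number of positive integers `n ≤ x` with the property `P` -/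
noncomputable def count (P : ℕ → Prop) (x : ℝ) : ℝ := ({n : ℕ | 1 ≤ n ∧ (n : ℝ) ≤ x ∧ P n}.ncard : ℝ)

/-- the trajectory of `n` exceeds `V` at a time at most `s`, and before it reaches a value `≤ y` -/
def ExceedsBy (s V y : ℝ) (n : ℕ) : Prop :=
  ∃ k : ℕ, (k : ℝ) ≤ s ∧ V < (T^[k] n : ℕ) ∧ ∀ j ≤ k, y < (T^[j] n : ℕ)

/-- the trajectory of `n` exceeds `V` before it reaches a value `≤ y` -/
def ExceedsBefore (V y : ℝ) (n : ℕ) : Prop :=
  ∃ k, V < (T^[k] n : ℕ) ∧ ∀ j ≤ k, y < (T^[j] n : ℕ)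

/-- the slope `(3/4) log (3/2) - (1/4) log 2 = 0.1308...` of the ascents, in the logarithmic scale -/
noncomputable def μ : ℝ := Real.log (27 / 16) / 4

/-- the constant of the standard deviation -/
noncomputable def κ : ℝ := √3 * Real.log 3 / (4 * μ * √μ)

/-- the standard normal distribution function -/
noncomputable def Φ (u : ℝ) : ℝ := cdf (gaussianReal 0 1) u

/-- `P(S_k > 0)`, `S_k` the sum of `k` independent variables which are `log(3/2)` or `-log 2`
with probability `1/2` -/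
noncomputable def up (k : ℕ) : ℝ :=
  ∑ s ∈ Finset.range (k + 1), if 2 ^ k < 3 ^ s then (k.choose s : ℝ) / 2 ^ k else 0

/-- `E[exp(S_k) ; S_k < 0]` -/
noncomputable def down (k : ℕ) : ℝ :=
  ∑ s ∈ Finset.range (k + 1), if 3 ^ s < 2 ^ k then (k.choose s : ℝ) / 2 ^ k * ((3 : ℝ) ^ s / 2 ^ k) else 0

/-- the constant of the tail -/
noncomputable def C : ℝ := 4 / Real.log (27 / 16) * Real.exp (-∑' k : ℕ, (up (k + 1) + down (k + 1)) / (k + 1))

theorem T_eq : T = Pool.Agent.Helper894.Collatz.T := rfl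

theorem C_eq : C = Pool.Agent.W36.SL.C := by
  rw [Pool.Agent.H77.Col.C_eq]
  unfold C Pool.Agent.H77.Col.Csp
  have e1 : ∀ k, up k = Pool.Agent.H77.Col.up k 0 := by
    intro k
    unfold up Pool.Agent.H77.Col.up
    apply Finset.sum_congr rfl
    intro s _
    rw [Real.rpow_zero, mul_one]
  have e2 : ∀ k, down k = Pool.Agent.H77.Col.dn k 1 := by
    intro k
    unfold down Pool.Agent.H77.Col.dn
    apply Finset.sum_congr rfl
    intro s _
    rw [Real.rpow_one]
  simp only [e1, e2]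

theorem bound_eq (u lam : ℝ) : Real.log lam / μ + u * κ * √(Real.log lam) = Pool.Agent.H77.Col.TT u lam := by
  unfold Pool.Agent.H77.Col.TT
  have e : κ = Pool.Agent.H77.Col.kap := by
    unfold κ Pool.Agent.H77.Col.kap Pool.Agent.H77.Col.sg
    have : μ = Pool.Agent.H77.Col.mu := rfl
    rw [this]
    have h1 := Pool.Agent.H77.Col.mu_pos.ne'
    have h2 := (Real.sqrt_pos.2 Pool.Agent.H77.Col.mu_pos).ne'
    field_simp
  rw [e]
  rfl

open scoped Classical in
open Pool.Agent.H77.Col in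
theorem count_eq' {x lam : ℝ} (hx : 0 ≤ x) (hl : 1 ≤ lam) (u y : ℝ) :
    count (fun n => ExceedsBy (Real.log lam / μ + u * κ * √(Real.log lam)) (lam * n) y n) x =
      (((Finset.Icc 1 ⌊x⌋₊).filter (ExcT ⌊TT u lam⌋₊ lam y)).card : ℝ) := by
  rw [bound_eq]
  unfold count
  have : {n : ℕ | 1 ≤ n ∧ (n : ℝ) ≤ x ∧ ExceedsBy (TT u lam) (lam * n) y n} =
      (((Finset.Icc 1 ⌊x⌋₊).filter (ExcT ⌊TT u lam⌋₊ lam y) : Finset ℕ) : Set ℕ) := by
    ext n
    rw [Finset.coe_filter]
    simp only [Set.mem_ofPred_eq, Finset.mem_Icc, Nat.le_floor_iff hx]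
    constructor
    · rintro ⟨h1, h2, k, hk, h⟩
      exact ⟨⟨h1, h2⟩, k, Nat.le_floor hk, h⟩
    · rintro ⟨⟨h1, h2⟩, k, hk, h3, h4⟩
      refine ⟨h1, h2, k, ?_, h3, h4⟩
      rcases Nat.eq_zero_or_pos k with h0 | h0
      · exfalso
        subst h0
        have h5 : lam * (n : ℝ) < n := h3
        have h6 : (0 : ℝ) ≤ n := Nat.cast_nonneg n
        nlinarith
      · exact (Nat.le_floor_iff' h0.ne').1 hk
  rw [this, Set.ncard_coe_finset]

/-- THE FIRST PASSAGE TIMES OF THE LARGE EXCURSIONS. As `x → ∞` and `lam → ∞`, `lam ≤ x^v` with `v < θ / 21`,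
uniformly for `x^θ ≤ y ≤ x^θ'`, the number of the `n ≤ x` whose trajectory exceeds `lam * n` before it reaches a
value `≤ y` is `(C + o(1)) x / lam`, and for all real `u`, uniformly in `u`, the number of those which exceed
`lam * n` at a time `≤ log lam / μ + u κ √(log lam)` is `(C Φ(u) + o(1)) x / lam`: the first time `k` with
`T^(k)(n) > lam n` of the trajectories which exceed `lam n` has asymptotically the normal law with the mean
`log lam / μ` and the variance `κ ^ 2 log lam`. All constants are explicit. -/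
theorem result : ∀ θ θ' v : ℝ, 0 < θ → θ ≤ θ' → θ' < 1 → v < θ / 21 → ∀ ε : ℝ, 0 < ε →
    ∃ L x₀ : ℝ, ∀ x y lam : ℝ, x₀ ≤ x → x ^ θ ≤ y → y ≤ x ^ θ' → L ≤ lam → lam ≤ x ^ v →
      |count (fun n => ExceedsBefore (lam * n) y n) x - C * (x / lam)| ≤ ε * (x / lam) ∧
      ∀ u : ℝ, |count (fun n => ExceedsBy (Real.log lam / μ + u * κ * √(Real.log lam)) (lam * n) y n) x -
        C * Φ u * (x / lam)| ≤ ε * (x / lam) := by
  classical
  intro θ θ' v h1 h2 h3 h4 ε hε
  obtain ⟨La, xa, ha⟩ := Pool.Agent.W36.SL.uniform h1 h2 h3 h4 hε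
  obtain ⟨Lb, xb, hb⟩ := Pool.Agent.H77.Col.first_passage_unif h1 h2 h3 h4 hε
  refine ⟨max (max La Lb) 1, max (max xa xb) 0, fun x y lam g1 g2 g3 g4 g5 => ?_⟩
  have hx0 : 0 ≤ x := le_trans (le_max_right _ _) g1
  have hl : 1 ≤ lam := le_trans (le_max_right _ _) g4
  rw [C_eq]
  constructor
  · have h := ha x y lam (le_trans (le_trans (le_max_left _ _) (le_max_left _ _)) g1) g2 g3
      (le_trans (le_trans (le_max_left _ _) (le_max_left _ _)) g4) g5
    have e : count (fun n => ExceedsBefore (lam * n) y n) x =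
        (((Finset.Icc 1 ⌊x⌋₊).filter (Pool.Agent.W36.SL.Exc lam y)).card : ℝ) := by
      exact Pool.Agent.Results.MP_0a5adf_nt.SharpLaw.count_eq (fun n => ExceedsBefore (lam * n) y n) hx0
    rw [e]
    exact h
  · intro u
    have h := hb x y lam (le_trans (le_trans (le_max_right _ _) (le_max_left _ _)) g1) g2 g3
      (le_trans (le_trans (le_max_right _ _) (le_max_left _ _)) g4) g5 u
    rw [count_eq' hx0 hl]
    exact h

end Pool.Agent.Results.MP_0a5adf_nt.FirstPassageOfLargeExcursions
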