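import Pool.Agent.H77.Col.Abel

set_option autoImplicit false

/-! The position and the size of the maximum of a `3x+1` trajectory: the complete limit law, explicitly. -/

namespace Pool.Agent.Results.MP_0a5adf_nt.PositionOfTheMaximum

open Filter Topology

/-- the accelerated `3x+1` map -/
def T (n : ℕ) : ℕ := if n % 2 = 0 then n / 2 else (3 * n + 1) / 2

/-- `t(n) < ∞` -/
def FiniteExcursion (n : ℕ) : Prop := ∃ M : ℕ, ∀ k, T^[k] n ≤ M

/-- `t(n) ≤ c` -/
def ExcursionLE (n : ℕ) (c : ℝ) : Prop := ∀ k, (T^[k] n : ℝ) ≤ c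

/-- the positive integers with the property `P` have the natural density `δ` -/
def HasDensity (P : ℕ → Prop) (δ : ℝ) : Prop :=
  Tendsto (fun N : ℕ => ({n : ℕ | 1 ≤ n ∧ n ≤ N ∧ P n}.ncard : ℝ) / N) atTop (𝓝 δ)

/-- the number of the odd terms among the first `k` terms of the trajectory of `n` -/
def odds (k n : ℕ) : ℕ := ∑ i ∈ Finset.range k, T^[i] n % 2

/-- the maximum of the trajectory of `n` is finite, is reached for the first time at the time `p.1`, and `p.2`
terms before that time are odd -/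
def PeakAt (p : ℕ × ℕ) (n : ℕ) : Prop :=
  odds p.1 n = p.2 ∧ (∀ j < p.1, T^[j] n < T^[p.1] n) ∧ ∀ j, T^[j] n ≤ T^[p.1] n

/-- the number of the `0`-`1` words of length `k` with `s` ones, all whose nonempty prefixes of length `l`
have `i` ones, `2^l < 3^i` -/
def rising : ℕ → ℕ → ℕ
  | 0, s => if s = 0 then 1 else 0
  | k + 1, s => if 2 ^ (k + 1) < 3 ^ s then rising k s + (if s = 0 then 0 else rising k (s - 1)) else 0

/-- `E[exp(σ S_k) ; S_k > 0]`, `S_k` the sum of `k` independent variables which are `log(3/2)` or `-log 2`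
with probability `1/2` -/
noncomputable def up (k : ℕ) (σ : ℝ) : ℝ :=
  ∑ s ∈ Finset.range (k + 1), if 2 ^ k < 3 ^ s then (k.choose s : ℝ) / 2 ^ k * ((3 : ℝ) ^ s / 2 ^ k) ^ σ else 0

/-- `E[exp(σ S_k) ; S_k < 0]` -/
noncomputable def down (k : ℕ) (σ : ℝ) : ℝ :=
  ∑ s ∈ Finset.range (k + 1), if 3 ^ s < 2 ^ k then (k.choose s : ℝ) / 2 ^ k * ((3 : ℝ) ^ s / 2 ^ k) ^ σ else 0

/-- `exp(- ∑_{k ≥ 1} P(S_k > 0) / k)` -/
noncomputable def ϖ : ℝ := Real.exp (-∑' k : ℕ, up (k + 1) 0 / (k + 1))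

/-- the limit law of the position of the maximum -/
noncomputable def mass (p : ℕ × ℕ) : ℝ := ϖ * (rising p.1 p.2 / 2 ^ p.1)

open scoped Classical in
/-- the mass of a set of positions -/
noncomputable def total (A : Set (ℕ × ℕ)) : ℝ := ∑' p : ℕ × ℕ, if p ∈ A then mass p else 0

/-- the constant of the tail -/
noncomputable def C : ℝ :=
  4 / Real.log (27 / 16) * Real.exp (-∑' k : ℕ, (up (k + 1) 0 + down (k + 1) 1) / (k + 1))

theorem T_eq : T = Pool.Agent.Helper894.Collatz.T := rfl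
theorem up_eq : up = Pool.Agent.H77.Col.up := rfl
theorem down_eq : down = Pool.Agent.H77.Col.dn := rfl
theorem rising_eq (k s : ℕ) : rising k s = Pool.Agent.H77.Col.rising k s := by
  induction k generalizing s with
  | zero => rfl
  | succ k ih => rw [rising, Pool.Agent.H77.Col.rising, ih, ih]
theorem mass_eq : mass = Pool.Agent.H77.Col.mass := by
  funext p
  unfold mass Pool.Agent.H77.Col.mass
  rw [rising_eq]; rfl

open Pool.Agent.H77.Col in
/-- THE POSITION AND THE SIZE OF THE MAXIMUM. Let `β > 0` be the density of the `n` with `t(n) < ∞`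
(`β = 1` iff this holds for all `n`). The numbers which are the maximum of their own trajectory, `t(n) = n`, have
the density `β ϖ`, `ϖ = exp(- ∑_{k ≥ 1} (1/k) 2^(-k) ∑_{3^s > 2^k} binom(k,s))`. The numbers whose maximum is
reached at the time `k` after `s` odd terms have the density `β ϖ rising(k,s) / 2^k`, the masses
`ϖ rising(k,s) / 2^k` have the sum `1`, and this is true jointly for every set of positions. The generating
function and the Mellin transform of the limit law are explicit.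
The density of the `n` with `lam n < t(n) < ∞` is `β` times the mass of the `(k,s)` with `lam 2^k ≤ 3^s`, and
this mass is asymptotic to `C / lam` with an explicit constant `C`. -/
theorem result :
    (Summable fun k : ℕ => up (k + 1) 0 / (k + 1)) ∧ (Summable fun k : ℕ => down (k + 1) 1 / (k + 1)) ∧
    ∃ β : ℝ, 0 < β ∧ β ≤ 1 ∧ (β = 1 ↔ ∀ n : ℕ, 1 ≤ n → FiniteExcursion n) ∧ HasDensity FiniteExcursion β ∧
    HasDensity (fun n => ∀ k, T^[k] n ≤ n) (β * ϖ) ∧
    (∀ p : ℕ × ℕ, HasDensity (PeakAt p) (β * mass p)) ∧ HasSum mass 1 ∧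
    (∀ A : Set (ℕ × ℕ), HasDensity (fun n => ∃ p ∈ A, PeakAt p n) (β * total A)) ∧
    (∀ σ z : ℝ, σ < 1 → 0 ≤ z → z ≤ 1 →
      HasSum (fun p : ℕ × ℕ => mass p * z ^ p.1 * ((3 : ℝ) ^ p.2 / 2 ^ p.1) ^ σ)
        (ϖ * Real.exp (∑' k : ℕ, z ^ (k + 1) / (k + 1) * up (k + 1) σ))) ∧
    (∀ lam : ℝ, 1 < lam → HasDensity (fun n => FiniteExcursion n ∧ ¬ ExcursionLE n (lam * n))
      (β * total {p | lam * 2 ^ p.1 ≤ 3 ^ p.2})) ∧
    Tendsto (fun lam : ℝ => lam * total {p | lam * 2 ^ p.1 ≤ 3 ^ p.2}) atTop (𝓝 C) := by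
  classical
  obtain ⟨β, h0, h1, h2, h3⟩ := Pool.Agent.H499R2.ND.Bdd_density
  have hbdd : ∀ (p : ℕ × ℕ) (n : ℕ), PeakAt p n → Pool.Agent.H499R2.ND.Bdd n := by
    intro p n h
    exact ⟨T^[p.1] n, fun k => h.2.2 k⟩
  have hpeak : ∀ p n, (Pool.Agent.H499R2.ND.Bdd n ∧ Pool.Agent.H77.Col.PeakAt p.1 p.2 n) ↔ PeakAt p n :=
    fun p n => ⟨fun h => h.2, fun h => ⟨hbdd p n h, h⟩⟩
  have hd : ∀ p : ℕ × ℕ, HasDensity (PeakAt p) (β * mass p) := by
    intro p
    have h4 := peak_density h3 p.1 p.2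
    have e : (fun n => Pool.Agent.H499R2.ND.Bdd n ∧ Pool.Agent.H77.Col.PeakAt p.1 p.2 n) = PeakAt p := by
      funext n; exact propext (hpeak p n)
    rw [e] at h4
    rw [mass_eq]
    exact h4
  have hz : Pool.Agent.H499R2.ND.Dn (fun _ => False) 0 := by
    rw [Pool.Agent.H499R2.ND.zd_iff]
    intro ε hε
    filter_upwards with N
    have : Pool.Agent.H499R2.ND.cnt (fun _ : ℕ => False) N = 0 := by
      unfold Pool.Agent.H499R2.ND.cnt; simp
    rw [this]; positivity
  refine ⟨up_summable 0 (by norm_num), dn_summable (by norm_num), β, h0, h1, h2, h3, ?_, hd, ?_, ?_, ?_, ?_, ?_⟩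
  · have h4 := hd (0, 0)
    have e : PeakAt (0, 0) = fun n => ∀ k, T^[k] n ≤ n := by
      funext n
      apply propext
      unfold PeakAt odds
      simp
    have e2 : mass (0, 0) = ϖ := by unfold mass; simp [rising]
    rw [e, e2] at h4
    exact h4
  · rw [mass_eq]; exact mass_hasSum
  · intro A
    have h4 := tight h3 h0.le (L := fun n => ∃ p ∈ A, PeakAt p n) (good := fun p => p ∈ A)
      (fun p hp => Pool.Agent.H499R2.ND.zd_mono hz fun n _ hn => hn.2 ⟨p, hp, (hpeak p n).1 hn.1⟩)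
      (fun p hp => Pool.Agent.H499R2.ND.zd_mono hz fun n _ hn => by
        obtain ⟨hn1, p', hp', hn2⟩ := hn
        have := peak_unique ((hpeak p n).2 ((hpeak p n).1 hn1)).2 ((hpeak p' n).2 hn2).2
        rw [this] at hp
        exact hp hp')
    have e : (fun n => Pool.Agent.H499R2.ND.Bdd n ∧ ∃ p ∈ A, PeakAt p n) = fun n => ∃ p ∈ A, PeakAt p n := by
      funext n
      apply propext
      exact ⟨fun h => h.2, fun ⟨p, hp, h⟩ => ⟨hbdd p n h, p, hp, h⟩⟩
    rw [e] at h4
    unfold total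
    rw [mass_eq]
    exact h4
  · intro σ z hσ hz0 hz1
    rw [mass_eq]
    exact gen_hasSum hσ hz0 hz1
  · intro lam hl
    have h4 := size_density h3 h0.le hl
    have e : (fun n => Pool.Agent.H499R2.ND.Bdd n ∧ ∃ k, lam * n < (Pool.Agent.Helper894.Collatz.T^[k] n : ℕ)) =
        fun n => FiniteExcursion n ∧ ¬ ExcursionLE n (lam * n) := by
      funext n
      apply propext
      unfold ExcursionLE
      push Not
      rfl
    rw [e] at h4
    have e2 : total {p | lam * 2 ^ p.1 ≤ 3 ^ p.2} = tail lam := by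
      unfold total tail
      rw [mass_eq]
      rfl
    rw [e2]
    exact h4
  · have e2 : ∀ lam : ℝ, total {p | lam * 2 ^ p.1 ≤ 3 ^ p.2} = tail lam := by
      intro lam
      unfold total tail
      rw [mass_eq]
      rfl
    simp only [e2]
    have h4 := tail_tendsto
    rw [C_eq] at h4
    exact h4

end Pool.Agent.Results.MP_0a5adf_nt.PositionOfTheMaximum
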