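import Pool.Agent.H77.Col.Shape3
import Pool.Agent.H77.Col.Abel

set_option autoImplicit false

/-! The shape of the large excursions of the `3x+1` trajectories: a tent with two explicit slopes. -/

namespace Pool.Agent.Results.MP_0a5adf_nt.ShapeOfLargeExcursions

open Filter Topology ProbabilityTheory

/-- the accelerated `3x+1` map -/
def T (n : ℕ) : ℕ := if n % 2 = 0 then n / 2 else (3 * n + 1) / 2

/-- the number of positive integers `n ≤ x` with the property `P` -/
noncomputable def count (P : ℕ → Prop) (x : ℝ) : ℝ := ({n : ℕ | 1 ≤ n ∧ (n : ℝ) ≤ x ∧ P n}.ncard : ℝ)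

/-- the trajectory of `n` exceeds `V` before it reaches a value `≤ y` -/
def ExceedsBefore (V y : ℝ) (n : ℕ) : Prop :=
  ∃ k, V < (T^[k] n : ℕ) ∧ ∀ j ≤ k, y < (T^[j] n : ℕ)

/-- the slope `(3/4) log (3/2) - (1/4) log 2 = 0.1308...` of the ascents, in the logarithmic scale -/
noncomputable def μ : ℝ := Real.log (27 / 16) / 4

/-- the slope `(1/2) log (4/3) = 0.1438...` of the descents, in the logarithmic scale -/
noncomputable def ν : ℝ := Real.log (4 / 3) / 2

/-- the first `A log lam` terms of the trajectory of `n` follow, in the logarithmic scale and up to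
`ε log lam`, the line with the slope `μ` up to the height `log lam`, and from there on the line with the
slope `-ν` -/
def Tent (ε A lam : ℝ) (n : ℕ) : Prop :=
  ∀ j : ℕ, (j : ℝ) ≤ A * Real.log lam →
    |Real.log ((T^[j] n : ℕ) / n) - min (μ * j) (Real.log lam - ν * (j - Real.log lam / μ))| ≤ ε * Real.log lam

/-- `P(S_k > 0)`, `S_k` the sum of `k` independent variables which are `log(3/2)` or `-log 2`
with probability `1/2` -/
noncomputable def up (k : ℕ) : ℝ :=
  ∑ s ∈ Finset.range (k + 1), if 2 ^ k < 3 ^ s then (k.choose s : ℝ) / 2 ^ k else 0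

/-- `E[exp(S_k) ; S_k < 0]` -/
noncomputable def down (k : ℕ) : ℝ :=
  ∑ s ∈ Finset.range (k + 1), if 3 ^ s < 2 ^ k then (k.choose s : ℝ) / 2 ^ k * ((3 : ℝ) ^ s / 2 ^ k) else 0

/-- the constant of the tail -/
noncomputable def C : ℝ := 4 / Real.log (27 / 16) * Real.exp (-∑' k : ℕ, (up (k + 1) + down (k + 1)) / (k + 1))

theorem T_eq : T = Pool.Agent.Helper894.Collatz.T := rfl

theorem C_eq : C = Pool.Agent.W36.SL.C := by
  rw [Pool.Agent.H77.Col.C_eq]
  unfold C Pool.Agent.H77.Col.Csp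
  have e1 : ∀ k, up k = Pool.Agent.H77.Col.up k 0 := by
    intro k
    unfold up Pool.Agent.H77.Col.up
    apply Finset.sum_congr rfl
    intro s _
    rw [Real.rpow_zero, mul_one]
  have e2 : ∀ k, down k = Pool.Agent.H77.Col.dn k 1 := by
    intro k
    unfold down Pool.Agent.H77.Col.dn
    apply Finset.sum_congr rfl
    intro s _
    rw [Real.rpow_one]
  simp only [e1, e2]

open scoped Classical in
/-- THE SHAPE OF THE LARGE EXCURSIONS. Let `0 < θ ≤ θ' < 1`, `v < θ / 21` and `A v log 2 < 1`. As `x → ∞` and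
`lam → ∞`, `lam ≤ x^v`, uniformly for `x^θ ≤ y ≤ x^θ'`, the number of the `n ≤ x` whose trajectory exceeds `lam * n`
before it reaches a value `≤ y` is `(C + o(1)) x / lam`, and all but `o(x / lam)` of them have the following shape:
`log (T^(j)(n) / n)` is, for all `j ≤ A log lam`, equal to `min (μ j) (log lam - ν (j - log lam / μ))` up to
`o(log lam)`, `μ = log (27/16) / 4`, `ν = log (4/3) / 2`. -/
theorem result : ∀ θ θ' v A : ℝ, 0 < θ → θ ≤ θ' → θ' < 1 → v < θ / 21 → A * v * Real.log 2 < 1 →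
    ∀ ε : ℝ, 0 < ε → ∃ L x₀ : ℝ, ∀ x y lam : ℝ, x₀ ≤ x → x ^ θ ≤ y → y ≤ x ^ θ' → L ≤ lam → lam ≤ x ^ v →
      |count (fun n => ExceedsBefore (lam * n) y n) x - C * (x / lam)| ≤ ε * (x / lam) ∧
      count (fun n => ExceedsBefore (lam * n) y n ∧ ¬ Tent ε A lam n) x ≤ ε * (x / lam) := by
  intro θ θ' v A h1 h2 h3 h4 h5 ε hε
  obtain ⟨La, xa, ha⟩ := Pool.Agent.W36.SL.uniform h1 h2 h3 h4 hε
  obtain ⟨Lb, xb, hb⟩ := Pool.Agent.H77.Col.tent_law h1 h2 h3 h4 h5 hε
  refine ⟨max La Lb, max (max xa xb) 0, fun x y lam g1 g2 g3 g4 g5 => ?_⟩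
  have hx0 : 0 ≤ x := le_trans (le_max_right _ _) g1
  rw [C_eq]
  constructor
  · have h := ha x y lam (le_trans (le_trans (le_max_left _ _) (le_max_left _ _)) g1) g2 g3
      (le_trans (le_max_left _ _) g4) g5
    have e : count (fun n => ExceedsBefore (lam * n) y n) x =
        (((Finset.Icc 1 ⌊x⌋₊).filter (Pool.Agent.W36.SL.Exc lam y)).card : ℝ) :=
      Pool.Agent.Results.MP_0a5adf_nt.SharpLaw.count_eq (fun n => ExceedsBefore (lam * n) y n) hx0
    rw [e]
    exact h
  · have h := hb x y lam (le_trans (le_trans (le_max_right _ _) (le_max_left _ _)) g1) g2 g3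
      (le_trans (le_max_right _ _) g4) g5
    have e : count (fun n => ExceedsBefore (lam * n) y n ∧ ¬ Tent ε A lam n) x =
        (((Finset.Icc 1 ⌊x⌋₊).filter (fun n => Pool.Agent.W36.SL.Exc lam y n ∧
          ¬ Pool.Agent.H77.Col.TentI ε A lam n)).card : ℝ) := by
      refine Eq.trans (Pool.Agent.Results.MP_0a5adf_nt.SharpLaw.count_eq
        (fun n => ExceedsBefore (lam * n) y n ∧ ¬ Tent ε A lam n) hx0) ?_
      apply congrArg Nat.cast
      apply congrArg Finset.card
      ext n
      simp only [Finset.mem_filter]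
      exact Iff.rfl
    rw [e]
    exact h

end Pool.Agent.Results.MP_0a5adf_nt.ShapeOfLargeExcursions
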